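import Mathlib

set_option autoImplicit false

/-! # Approximations to `exp (2 / k)` -/

namespace Pool.Agent.H447R2.PE

open Real intervalIntegral MeasureTheory

/-- the integrals -/
noncomputable def G (x : ℝ) (n : ℕ) : ℝ := ∫ u in (-1 : ℝ)..1, (1 - u ^ 2) ^ n * exp (x * u)

theorem cont_int (x : ℝ) (n : ℕ) : Continuous fun u : ℝ => (1 - u ^ 2) ^ n * exp (x * u) := by
  fun_prop

theorem G_rec (x : ℝ) (n : ℕ) :
    x ^ 2 * G x (n + 2) =
      4 * (n + 1) * (n + 2) * G x n - 2 * (n + 2) * (2 * n + 3) * G x (n + 1) := by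
  have hF : ∀ u ∈ Set.uIcc (-1 : ℝ) 1, HasDerivAt
      (fun u : ℝ => exp (x * u) * (x * (1 - u ^ 2) ^ (n + 2) + 2 * (n + 2) * u * (1 - u ^ 2) ^ (n + 1)))
      (x ^ 2 * ((1 - u ^ 2) ^ (n + 2) * exp (x * u)) +
        2 * (n + 2) * (2 * n + 3) * ((1 - u ^ 2) ^ (n + 1) * exp (x * u)) -
        4 * (n + 1) * (n + 2) * ((1 - u ^ 2) ^ n * exp (x * u))) u := by
    intro u _
    have h1 : HasDerivAt (fun u : ℝ => exp (x * u)) (exp (x * u) * x) u := by
      have := (hasDerivAt_id u).const_mul x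
      simpa using this.exp
    have h2 : HasDerivAt (fun u : ℝ => 1 - u ^ 2) (-(2 * u)) u := by
      have := (hasDerivAt_pow 2 u).const_sub 1
      simpa using this
    have h3 := h2.pow (n + 2)
    have h4 := h2.pow (n + 1)
    have h5 := ((h3.const_mul x).add (((hasDerivAt_id u).const_mul (2 * ((n : ℝ) + 2))).mul h4))
    have h6 := h1.mul h5
    refine h6.congr_deriv ?_
    simp only [id, Nat.add_sub_cancel]
    push_cast
    have e1 : (1 - u ^ 2) ^ (n + 2 - 1) = (1 - u ^ 2) ^ n * (1 - u ^ 2) := by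
      rw [show n + 2 - 1 = n + 1 by omega, pow_succ]
    simp only [Pi.mul_apply, Pi.add_apply, Pi.pow_apply]
    ring
  have h := integral_eq_sub_of_hasDerivAt hF (by
    apply Continuous.intervalIntegrable
    fun_prop)
  have hI : ∀ m, IntervalIntegrable (fun u : ℝ => (1 - u ^ 2) ^ m * exp (x * u)) volume (-1) 1 :=
    fun m => (cont_int x m).intervalIntegrable _ _
  rw [integral_sub (((hI _).const_mul _).add ((hI _).const_mul _)) ((hI _).const_mul _),
    integral_add ((hI _).const_mul _) ((hI _).const_mul _)] at h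
  simp only [intervalIntegral.integral_const_mul] at h
  have e2 : (1 - (1 : ℝ) ^ 2) ^ (n + 2) = 0 := by norm_num
  have e3 : (1 - (1 : ℝ) ^ 2) ^ (n + 1) = 0 := by norm_num
  have e4 : (1 - (-1 : ℝ) ^ 2) ^ (n + 2) = 0 := by norm_num
  have e5 : (1 - (-1 : ℝ) ^ 2) ^ (n + 1) = 0 := by norm_num
  rw [e2, e3, e4, e5] at h
  simp only [G]
  linarith

theorem G_one (x : ℝ) : x ^ 2 * G x 1 + 2 * G x 0 = 2 * exp x + 2 * exp (-x) := by
  have hF : ∀ u ∈ Set.uIcc (-1 : ℝ) 1, HasDerivAt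
      (fun u : ℝ => exp (x * u) * (x * (1 - u ^ 2) + 2 * u))
      (x ^ 2 * ((1 - u ^ 2) ^ 1 * exp (x * u)) + 2 * ((1 - u ^ 2) ^ 0 * exp (x * u))) u := by
    intro u _
    have h1 : HasDerivAt (fun u : ℝ => exp (x * u)) (exp (x * u) * x) u := by
      have := (hasDerivAt_id u).const_mul x
      simpa using this.exp
    have h2 : HasDerivAt (fun u : ℝ => 1 - u ^ 2) (-(2 * u)) u := by
      have := (hasDerivAt_pow 2 u).const_sub 1
      simpa using this
    have h5 := ((h2.const_mul x).add ((hasDerivAt_id u).const_mul (2 : ℝ)))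
    have h6 := h1.mul h5
    refine h6.congr_deriv ?_
    simp only [id, Pi.add_apply]
    ring
  have h := integral_eq_sub_of_hasDerivAt hF (by
    apply Continuous.intervalIntegrable
    fun_prop)
  have hI : ∀ m, IntervalIntegrable (fun u : ℝ => (1 - u ^ 2) ^ m * exp (x * u)) volume (-1) 1 :=
    fun m => (cont_int x m).intervalIntegrable _ _
  rw [integral_add ((hI _).const_mul _) ((hI _).const_mul _)] at h
  simp only [intervalIntegral.integral_const_mul] at h
  simp only [G]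
  have e1 : x * -1 = -x := by ring
  rw [e1] at h
  simp only [mul_one] at h
  linarith

theorem G_zero (x : ℝ) : x * G x 0 = exp x - exp (-x) := by
  have hF : ∀ u ∈ Set.uIcc (-1 : ℝ) 1, HasDerivAt
      (fun u : ℝ => exp (x * u)) (x * ((1 - u ^ 2) ^ 0 * exp (x * u))) u := by
    intro u _
    have := (hasDerivAt_id u).const_mul x
    have h1 := this.exp
    refine (h1.congr_deriv ?_)
    simp only [id]
    ring
  have h := integral_eq_sub_of_hasDerivAt hF (by
    apply Continuous.intervalIntegrable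
    fun_prop)
  simp only [intervalIntegral.integral_const_mul] at h
  simp only [G]
  rw [h]
  congr 2 <;> ring

theorem G_pos (x : ℝ) (n : ℕ) : 0 < G x n := by
  apply intervalIntegral_pos_of_pos_on ((cont_int x n).intervalIntegrable _ _) _ (by norm_num)
  intro u hu
  have h1 : 0 < 1 - u ^ 2 := by nlinarith [hu.1, hu.2]
  positivity

theorem G_le (x : ℝ) (hx : 0 ≤ x) (n : ℕ) : G x n ≤ 2 * exp x := by
  have h1 : G x n ≤ ∫ _u in (-1 : ℝ)..1, exp x := by
    apply integral_mono_on (by norm_num) ((cont_int x n).intervalIntegrable _ _)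
      (continuous_const.intervalIntegrable _ _)
    intro u hu
    have h0 : 0 ≤ 1 - u ^ 2 := by nlinarith [hu.1, hu.2]
    have h2 : (1 - u ^ 2) ^ n ≤ 1 := pow_le_one₀ h0 (by nlinarith [sq_nonneg u])
    have h3 : exp (x * u) ≤ exp x := exp_le_exp.2 (by nlinarith [hu.2])
    calc (1 - u ^ 2) ^ n * exp (x * u) ≤ 1 * exp x :=
          mul_le_mul h2 h3 (exp_pos _).le (by norm_num)
      _ = exp x := one_mul _
  have h2 : ∫ _u in (-1 : ℝ)..1, exp x = 2 * exp x := by
    rw [intervalIntegral.integral_const]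
    simp
    ring
  linarith

/-- the normalised integrals: `E n = exp x * x ^ (n+1) * G n / (2 ^ n n!)`, `x = 1 / k` -/
noncomputable def E (k n : ℕ) : ℝ :=
  exp (1 / (k : ℝ)) * (1 / (k : ℝ)) ^ (n + 1) * G (1 / (k : ℝ)) n / (2 ^ n * n.factorial)

theorem E_rec (k : ℕ) (hk : 1 ≤ k) (n : ℕ) : E k (n + 2) = E k n - (2 * n + 3) * k * E k (n + 1) := by
  have h := G_rec (1 / (k : ℝ)) n
  have hk0 : (k : ℝ) ≠ 0 := by positivity
  set x := (1 / (k : ℝ)) with hx
  have hx0 : x ≠ 0 := by rw [hx]; positivity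
  have hkx : (k : ℝ) = x⁻¹ := by rw [hx]; simp
  unfold E
  rw [← hx, hkx]
  have hf : (n.factorial : ℝ) ≠ 0 := by positivity
  have e1 : ((n + 1).factorial : ℝ) = (n + 1) * n.factorial := by
    rw [Nat.factorial_succ]; push_cast; ring
  have e2 : ((n + 2).factorial : ℝ) = (n + 2) * ((n + 1) * n.factorial) := by
    rw [Nat.factorial_succ (n + 1), Nat.factorial_succ n]; push_cast; ring
  rw [e1, e2]
  have hn1 : (n : ℝ) + 1 ≠ 0 := by positivity
  have hn2 : (n : ℝ) + 2 ≠ 0 := by positivity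
  have h2 : G x (n + 2) = (4 * (n + 1) * (n + 2) * G x n -
      2 * (n + 2) * (2 * n + 3) * G x (n + 1)) / x ^ 2 := by
    rw [← h]; field_simp
  rw [h2]
  field_simp
  ring

theorem exp_two_div (k : ℕ) :
    exp (2 / (k : ℝ)) = exp (1 / (k : ℝ)) * exp (1 / (k : ℝ)) := by
  rw [← exp_add]; congr 1; ring

theorem E_zero (k : ℕ) (hk : 1 ≤ k) : E k 0 = exp (2 / (k : ℝ)) - 1 := by
  have h := G_zero (1 / (k : ℝ))
  unfold E
  simp only [zero_add, pow_one, pow_zero, Nat.factorial_zero, Nat.cast_one, mul_one, div_one]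
  rw [mul_assoc, h, mul_sub, ← exp_add, ← exp_add, exp_two_div k, ← exp_add]
  simp

theorem E_one (k : ℕ) (hk : 1 ≤ k) :
    E k 1 = (exp (2 / (k : ℝ)) + 1) - k * (exp (2 / (k : ℝ)) - 1) := by
  have h := G_one (1 / (k : ℝ))
  have h0 := E_zero k hk
  have hk0 : (k : ℝ) ≠ 0 := by positivity
  rw [← h0]
  unfold E
  simp only [zero_add, pow_one, pow_zero, Nat.factorial_zero, Nat.factorial_one, Nat.cast_one,
    mul_one, div_one]
  have h2 : exp (1 / (k : ℝ)) * exp (-(1 / (k : ℝ))) = 1 := by rw [← exp_add]; simp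
  have h3 : exp (2 / (k : ℝ)) + 1 = exp (1 / (k : ℝ)) * (exp (1 / (k : ℝ)) + exp (-(1 / (k : ℝ)))) := by
    rw [mul_add, h2, exp_two_div k]
  rw [h3]
  have h4 : exp (1 / (k : ℝ)) + exp (-(1 / (k : ℝ))) =
      ((1 / (k : ℝ)) ^ 2 * G (1 / (k : ℝ)) 1 + 2 * G (1 / (k : ℝ)) 0) / 2 := by
    rw [h]; ring
  rw [h4]
  clear h h0 h2 h3 h4
  set x := (1 / (k : ℝ)) with hx
  have hx0 : x ≠ 0 := by rw [hx]; positivity
  have hkx : (k : ℝ) = x⁻¹ := by rw [hx]; simp
  rw [hkx]
  field_simp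
  ring

theorem E_pos (k n : ℕ) (hk : 1 ≤ k) : 0 < E k n := by
  unfold E
  have := G_pos (1 / (k : ℝ)) n
  positivity

theorem E_le (k n : ℕ) (hk : 1 ≤ k) : E k n ≤ 2 * exp 2 / n.factorial := by
  unfold E
  have h1 := G_le (1 / (k : ℝ)) (by positivity) n
  have hk1 : (1 : ℝ) ≤ k := by exact_mod_cast hk
  have h2 : (1 / (k : ℝ)) ≤ 1 := by rw [div_le_one (by positivity)]; exact hk1
  have h3 : exp (1 / (k : ℝ)) ≤ exp 1 := exp_le_exp.2 h2
  have h4 : (1 / (k : ℝ)) ^ (n + 1) ≤ 1 := pow_le_one₀ (by positivity) h2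
  have h5 : G (1 / (k : ℝ)) n ≤ 2 * exp 1 := by linarith
  have hG := (G_pos (1 / (k : ℝ)) n).le
  have h6 : exp (1 / (k : ℝ)) * (1 / (k : ℝ)) ^ (n + 1) * G (1 / (k : ℝ)) n ≤
      exp 1 * 1 * (2 * exp 1) := by
    apply mul_le_mul (mul_le_mul h3 h4 (by positivity) (exp_pos _).le) h5 hG (by positivity)
  have h7 : exp 1 * 1 * (2 * exp 1) = 2 * exp 2 := by
    rw [mul_one, show exp 1 * (2 * exp 1) = 2 * (exp 1 * exp 1) by ring, ← exp_add]; norm_num
  rw [h7] at h6
  have h8 : (0 : ℝ) < n.factorial := by positivity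
  have h9 : (n.factorial : ℝ) ≤ 2 ^ n * n.factorial := by
    have : (1 : ℝ) ≤ 2 ^ n := one_le_pow₀ (by norm_num)
    nlinarith
  calc _ ≤ 2 * exp 2 / (2 ^ n * n.factorial) := by
        apply div_le_div_of_nonneg_right h6 (by positivity)
    _ ≤ _ := by
        apply div_le_div_of_nonneg_left (by positivity) h8 h9

end Pool.Agent.H447R2.PE
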