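import Mathlib
import Pool.Agent.H447R2.PE.Pade

set_option autoImplicit false

/-! # A lower bound for linear forms in `1` and `exp (2 / k)`, and its consequence for `π` -/

namespace Pool.Agent.H447R2.PE

open Real

/-- coefficients of `exp (2 / k)` -/
def A (k : ℤ) : ℕ → ℤ
  | 0 => 1
  | 1 => k - 1
  | (n + 2) => (2 * n + 3) * k * A k (n + 1) + A k n

/-- constant coefficients -/
def B (k : ℤ) : ℕ → ℤ
  | 0 => 1
  | 1 => k + 1
  | (n + 2) => (2 * n + 3) * k * B k (n + 1) + B k n

theorem E_eq (k : ℕ) (hk : 1 ≤ k) (n : ℕ) :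
    E k n = (-1) ^ n * ((A k n : ℝ) * exp (2 / (k : ℝ)) - B k n) ∧
    E k (n + 1) = (-1) ^ (n + 1) * ((A k (n + 1) : ℝ) * exp (2 / (k : ℝ)) - B k (n + 1)) := by
  induction n with
  | zero =>
    refine ⟨?_, ?_⟩
    · rw [E_zero k hk]; simp [A, B]
    · rw [zero_add, E_one k hk]; simp [A, B]; ring
  | succ n ih =>
    refine ⟨ih.2, ?_⟩
    rw [E_rec k hk n, ih.1, ih.2]
    simp only [A, B]
    push_cast
    ring

theorem det_eq (k : ℤ) (n : ℕ) : A k n * B k (n + 1) - A k (n + 1) * B k n = 2 * (-1) ^ n := by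
  induction n with
  | zero => simp [A, B]
  | succ n ih =>
    have e1 : A k (n + 2) = (2 * n + 3) * k * A k (n + 1) + A k n := rfl
    have e2 : B k (n + 2) = (2 * n + 3) * k * B k (n + 1) + B k n := rfl
    rw [e1, e2, pow_succ]
    linear_combination -ih

theorem E_A (k : ℕ) (hk : 1 ≤ k) (n : ℕ) :
    E k n * A k (n + 1) + E k (n + 1) * A k n = 2 := by
  obtain ⟨h1, h2⟩ := E_eq k hk n
  have h3 : ((A k n : ℝ) * B k (n + 1) - A k (n + 1) * B k n) = 2 * (-1) ^ n := by
    exact_mod_cast det_eq k n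
  have h4 : ((-1 : ℝ) ^ n) * ((-1 : ℝ) ^ n) = 1 := by
    rw [← mul_pow]; norm_num
  rw [h1, h2, pow_succ]
  linear_combination ((-1 : ℝ) ^ n) * h3 + 2 * h4

theorem A_nonneg (k : ℤ) (hk : 1 ≤ k) (n : ℕ) : 0 ≤ A k n ∧ 0 ≤ A k (n + 1) := by
  induction n with
  | zero => simp [A]; omega
  | succ n ih =>
    refine ⟨ih.2, ?_⟩
    have e1 : A k (n + 1 + 1) = (2 * n + 3) * k * A k (n + 1) + A k n := rfl
    rw [e1]
    have := ih.1
    have := ih.2
    positivity

theorem A_le_succ (k : ℤ) (hk : 1 ≤ k) (n : ℕ) (hn : 1 ≤ n) : A k n ≤ A k (n + 1) := by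
  obtain ⟨m, rfl⟩ : ∃ m, n = m + 1 := ⟨n - 1, by omega⟩
  have e1 : A k (m + 1 + 1) = (2 * m + 3) * k * A k (m + 1) + A k m := rfl
  rw [e1]
  have h1 := (A_nonneg k hk m).1
  have h2 := (A_nonneg k hk m).2
  have h3 : 1 ≤ (2 * (m : ℤ) + 3) * k := by nlinarith [(Nat.cast_nonneg m : (0 : ℤ) ≤ m)]
  nlinarith

theorem A_succ_le (k : ℤ) (hk : 1 ≤ k) (n : ℕ) (hn : 2 ≤ n) :
    A k (n + 1) ≤ (2 * n + 2) * k * A k n := by
  obtain ⟨m, rfl⟩ : ∃ m, n = m + 1 := ⟨n - 1, by omega⟩
  have e1 : A k (m + 1 + 1) = (2 * m + 3) * k * A k (m + 1) + A k m := rfl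
  rw [e1]
  have h1 := A_le_succ k hk m (by omega)
  have h2 := (A_nonneg k hk m).2
  push_cast
  nlinarith

theorem A_two_pos (k : ℤ) (hk : 1 ≤ k) : 1 ≤ A k 2 ∧ A k 2 ≤ 3 * k ^ 2 := by
  have : A k 2 = 3 * k * (k - 1) + 1 := by simp [A]
  rw [this]
  constructor
  · nlinarith
  · nlinarith

theorem fact_le_A (k : ℤ) (hk : 1 ≤ k) (n : ℕ) : ((n + 1).factorial : ℤ) ≤ A k (n + 2) := by
  induction n with
  | zero => simpa using (A_two_pos k hk).1
  | succ n ih =>
    have e1 : A k (n + 1 + 2) = (2 * (n + 1 : ℕ) + 3) * k * A k (n + 2) + A k (n + 1) := rfl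
    rw [e1, Nat.factorial_succ]
    have h1 := (A_nonneg k hk (n + 1)).1
    have h2 := (A_nonneg k hk (n + 1)).2
    have h3 : ((n : ℤ) + 1 + 1) ≤ (2 * ((n : ℤ) + 1) + 3) * k := by
      nlinarith [(Nat.cast_nonneg n : (0 : ℤ) ≤ n)]
    push_cast
    have h4 : ((n : ℤ) + 1 + 1) * ((n + 1).factorial : ℤ) ≤
        (2 * ((n : ℤ) + 1) + 3) * k * A k (n + 2) := by
      apply mul_le_mul h3 ih (by positivity)
      nlinarith [(Nat.cast_nonneg n : (0 : ℤ) ≤ n)]
    linarith

theorem E_anti (k : ℕ) (hk : 1 ≤ k) (n : ℕ) : E k (n + 1) ≤ E k n := by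
  have h1 := E_rec k hk n
  have h2 := E_pos k (n + 2) hk
  have h3 := E_pos k (n + 1) hk
  have hk1 : (1 : ℝ) ≤ k := by exact_mod_cast hk
  have h4 : 1 ≤ (2 * (n : ℝ) + 3) * k := by nlinarith [(Nat.cast_nonneg n : (0 : ℝ) ≤ n)]
  nlinarith

theorem E_tendsto (k : ℕ) (hk : 1 ≤ k) (ε : ℝ) (hε : 0 < ε) : ∃ n, 2 ≤ n ∧ E k n ≤ ε := by
  have h1 : Filter.Tendsto (fun n : ℕ => 2 * exp 2 / (n.factorial : ℝ)) Filter.atTop (nhds 0) := by
    apply Filter.Tendsto.div_atTop tendsto_const_nhds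
    exact tendsto_natCast_atTop_atTop.comp factorial_tendsto_atTop
  have h2 := (h1.eventually_le_const hε).and (Filter.eventually_ge_atTop 2)
  obtain ⟨n, hn, hn2⟩ := h2.exists
  exact ⟨n, hn2, (E_le k n hk).trans hn⟩

/-- the main lemma -/
theorem lin_form (k : ℕ) (hk : 1 ≤ k) (u v : ℤ) (h0 : u ≠ 0 ∨ v ≠ 0) (U : ℝ) (hU : 1 ≤ U)
    (hu : |(u : ℝ)| ≤ U) :
    ∃ n : ℕ, 2 ≤ n ∧ 1 / (48 * (k : ℝ) ^ 3 * (n + 1) * U) ≤ |(u : ℝ) * exp (2 / (k : ℝ)) - v| ∧
      (n = 2 ∨ ((n - 1).factorial : ℝ) < 4 * U) := by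
  classical
  set w := exp (2 / (k : ℝ)) with hw
  have hkZ : (1 : ℤ) ≤ (k : ℤ) := by exact_mod_cast hk
  have hk1 : (1 : ℝ) ≤ k := by exact_mod_cast hk
  have hex : ∃ n, 2 ≤ n ∧ 2 * U * E k n ≤ 1 := by
    obtain ⟨n, hn, h⟩ := E_tendsto k hk (1 / (2 * U)) (by positivity)
    refine ⟨n, hn, ?_⟩
    rw [le_div_iff₀ (by positivity)] at h
    linarith
  set n := Nat.find hex with hn
  obtain ⟨hn2, hnE⟩ := Nat.find_spec hex
  rw [← hn] at hn2 hnE
  refine ⟨n, hn2, ?_, ?_⟩
  swap
  · rcases Nat.eq_or_lt_of_le hn2 with h | h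
    · exact Or.inl h.symm
    · right
      have h1 := Nat.find_min hex (m := n - 1) (by rw [← hn]; omega)
      have h2 : 1 < 2 * U * E k (n - 1) := by
        by_contra hcon
        push Not at hcon
        exact h1 ⟨by omega, hcon⟩
      have h3 := E_A k hk (n - 1)
      rw [show n - 1 + 1 = n by omega] at h3
      have h4 : (0 : ℝ) ≤ E k n * A k (n - 1) :=
        mul_nonneg (E_pos k n hk).le (by exact_mod_cast (A_nonneg k hkZ (n - 1)).1)
      have h5 : E k (n - 1) * A k n ≤ 2 := by linarith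
      have h6 : (((n - 1).factorial : ℕ) : ℤ) ≤ A k n := by
        have := fact_le_A k hkZ (n - 2)
        rwa [show n - 2 + 1 = n - 1 by omega, show n - 2 + 2 = n by omega] at this
      have h7 : ((n - 1).factorial : ℝ) ≤ A k n := by exact_mod_cast h6
      have h8 : (0 : ℝ) < (n - 1).factorial := by positivity
      have h9 : (0 : ℝ) < A k n := by linarith
      have h10 : (A k n : ℝ) < 4 * U := by
        have h11 : (A k n : ℝ) * 1 < A k n * (2 * U * E k (n - 1)) :=
          mul_lt_mul_of_pos_left h2 h9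
        have h12 : A k n * (2 * U * E k (n - 1)) = 2 * U * (E k (n - 1) * A k n) := by ring
        rw [h12] at h11
        have h13 : 2 * U * (E k (n - 1) * A k n) ≤ 2 * U * 2 :=
          mul_le_mul_of_nonneg_left h5 (by positivity)
        linarith
      linarith
  -- lower bound for the linear form
  have hAn1 : (0 : ℝ) < A k (n + 1) := by
    have h1 := fact_le_A k hkZ (n - 1)
    rw [show n - 1 + 2 = n + 1 by omega] at h1
    have h2 : ((n - 1 + 1).factorial : ℝ) ≤ A k (n + 1) := by exact_mod_cast h1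
    have h3 : (0 : ℝ) < (n - 1 + 1).factorial := by positivity
    linarith
  have hAnn : (A k n : ℝ) ≤ A k (n + 1) := by exact_mod_cast A_le_succ k hkZ n (by omega)
  have hE1 : 2 * U * E k (n + 1) ≤ 1 := by
    have := E_anti k hk n
    have h2 : 2 * U * E k (n + 1) ≤ 2 * U * E k n := mul_le_mul_of_nonneg_left this (by positivity)
    linarith
  have key : ∀ m, u * B k m - v * A k m ≠ 0 → 2 * U * E k m ≤ 1 → (A k m : ℝ) ≤ A k (n + 1) →
      1 / (2 * (A k (n + 1) : ℝ)) ≤ |(u : ℝ) * w - v| := by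
    intro m hm hEm hAm
    have h1 : (1 : ℝ) ≤ |(u : ℝ) * B k m - v * A k m| := by
      have : (1 : ℤ) ≤ |u * B k m - v * A k m| := Int.one_le_abs hm
      exact_mod_cast this
    have h2 := (E_eq k hk m).1
    have h3 : |(A k m : ℝ) * w - B k m| = E k m := by
      have : (A k m : ℝ) * w - B k m = (-1) ^ m * E k m := by
        rw [h2, ← hw, ← mul_assoc, ← mul_pow]; norm_num
      rw [this, abs_mul, abs_pow]
      simp [abs_of_pos (E_pos k m hk)]
    have h4 : (u : ℝ) * B k m - v * A k m =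
        -(u * ((A k m : ℝ) * w - B k m)) + A k m * (u * w - v) := by ring
    have h5 : |(u : ℝ) * B k m - v * A k m| ≤ |(u : ℝ)| * E k m + A k m * |(u : ℝ) * w - v| := by
      rw [h4]
      refine (abs_add_le _ _).trans ?_
      rw [abs_neg, abs_mul, abs_mul, h3,
        abs_of_nonneg (by exact_mod_cast (A_nonneg k hkZ m).1 : (0 : ℝ) ≤ A k m)]
    have h6 : |(u : ℝ)| * E k m ≤ 1 / 2 := by
      have : |(u : ℝ)| * E k m ≤ U * E k m := mul_le_mul_of_nonneg_right hu (E_pos k m hk).le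
      linarith
    have h7 : (A k m : ℝ) * |(u : ℝ) * w - v| ≤ A k (n + 1) * |(u : ℝ) * w - v| :=
      mul_le_mul_of_nonneg_right hAm (abs_nonneg _)
    rw [div_le_iff₀ (by positivity)]
    linarith
  have hL : 1 / (2 * (A k (n + 1) : ℝ)) ≤ |(u : ℝ) * w - v| := by
    by_cases h1 : u * B k n - v * A k n = 0
    · by_cases h2 : u * B k (n + 1) - v * A k (n + 1) = 0
      · exfalso
        have hdet := det_eq k n
        have h3 : u * (A k n * B k (n + 1) - A k (n + 1) * B k n) = 0 := by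
          linear_combination A k n * h2 - A k (n + 1) * h1
        have h4 : v * (A k n * B k (n + 1) - A k (n + 1) * B k n) = 0 := by
          linear_combination B k n * h2 - B k (n + 1) * h1
        have h5 : (2 * (-1) ^ n : ℤ) ≠ 0 := by
          apply mul_ne_zero (by norm_num)
          exact pow_ne_zero _ (by norm_num)
        rw [hdet] at h3 h4
        have h6 := (mul_eq_zero.1 h3).resolve_right h5
        have h7 := (mul_eq_zero.1 h4).resolve_right h5
        rcases h0 with h | h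
        · exact h h6
        · exact h h7
      · exact key (n + 1) h2 hE1 le_rfl
    · exact key n h1 hnE hAnn
  refine le_trans ?_ hL
  -- upper bound for `A k (n+1)`
  have hup : (A k (n + 1) : ℝ) ≤ (2 * n + 2) * k * A k n := by
    exact_mod_cast A_succ_le k hkZ n hn2
  have hAU : (A k n : ℝ) ≤ 3 * (k : ℝ) ^ 2 * (4 * U) := by
    rcases Nat.eq_or_lt_of_le hn2 with h | h
    · rw [← h]
      have h1 : (A k 2 : ℝ) ≤ 3 * (k : ℝ) ^ 2 := by exact_mod_cast (A_two_pos k hkZ).2
      have h2 : (1 : ℝ) ≤ 4 * U := by linarith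
      have h3 : (0 : ℝ) ≤ 3 * (k : ℝ) ^ 2 := by positivity
      nlinarith
    · have h1 := Nat.find_min hex (m := n - 1) (by rw [← hn]; omega)
      have h2 : 1 < 2 * U * E k (n - 1) := by
        by_contra hcon
        push Not at hcon
        exact h1 ⟨by omega, hcon⟩
      have h3 := E_A k hk (n - 1)
      rw [show n - 1 + 1 = n by omega] at h3
      have h4 : (0 : ℝ) ≤ E k n * A k (n - 1) :=
        mul_nonneg (E_pos k n hk).le (by exact_mod_cast (A_nonneg k hkZ (n - 1)).1)
      have h5 : E k (n - 1) * A k n ≤ 2 := by linarith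
      have h9 : (0 : ℝ) ≤ A k n := by exact_mod_cast (A_nonneg k hkZ n).1
      have h10 : (A k n : ℝ) ≤ 4 * U := by
        have h11 : (A k n : ℝ) * 1 ≤ A k n * (2 * U * E k (n - 1)) :=
          mul_le_mul_of_nonneg_left h2.le h9
        have h12 : A k n * (2 * U * E k (n - 1)) = 2 * U * (E k (n - 1) * A k n) := by ring
        rw [h12] at h11
        have h13 : 2 * U * (E k (n - 1) * A k n) ≤ 2 * U * 2 :=
          mul_le_mul_of_nonneg_left h5 (by positivity)
        linarith
      have h14 : (1 : ℝ) ≤ 3 * (k : ℝ) ^ 2 := by nlinarith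
      have h15 : (0 : ℝ) ≤ 4 * U := by positivity
      nlinarith
  have hn0 : (0 : ℝ) ≤ n := Nat.cast_nonneg n
  have hfin : 2 * (A k (n + 1) : ℝ) ≤ 48 * (k : ℝ) ^ 3 * (n + 1) * U := by
    have h1 : (2 * (n : ℝ) + 2) * k * A k n ≤ (2 * (n : ℝ) + 2) * k * (3 * (k : ℝ) ^ 2 * (4 * U)) :=
      mul_le_mul_of_nonneg_left hAU (by positivity)
    have h2 : (2 * (n : ℝ) + 2) * k * (3 * (k : ℝ) ^ 2 * (4 * U)) =
        24 * (k : ℝ) ^ 3 * (n + 1) * U := by ring
    linarith
  apply one_div_le_one_div_of_le (by positivity) hfin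

/-- comparison of `n` with `log U / log log U` -/
theorem n_le (U : ℝ) (hU : 3 ≤ U) (n : ℕ) (hn : n = 2 ∨ ((n - 1).factorial : ℝ) < 4 * U) :
    ((n : ℝ) + 1) * log (log U) ≤ 15 * log U := by
  set y := log U with hy
  have hy1 : 1 < y := by
    rw [hy, Real.lt_log_iff_exp_lt (by linarith)]
    have := Real.exp_one_lt_d9
    linarith
  have hly : 0 ≤ log y := Real.log_nonneg hy1.le
  have hlyy : log y ≤ y := by
    have := Real.log_le_sub_one_of_pos (by linarith : 0 < y)
    linarith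
  rcases hn with rfl | hn
  · push_cast
    nlinarith
  by_cases hn1 : n ≤ 1
  · have : (n : ℝ) ≤ 1 := by exact_mod_cast hn1
    nlinarith
  push Not at hn1
  set j := (n - 1) / 2 with hj
  have hjn : (n : ℝ) + 1 ≤ 2 * j + 3 := by
    have : n + 1 ≤ 2 * j + 3 := by omega
    exact_mod_cast this
  have h1 : (j + 1) ^ j ≤ (n - 1).factorial := by
    have h2 : j.factorial * (j + 1) ^ j ≤ (j + j).factorial := Nat.factorial_mul_pow_le_factorial
    have h3 : (j + j).factorial ≤ (n - 1).factorial := Nat.factorial_le (by omega)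
    have h4 : 1 ≤ j.factorial := Nat.factorial_pos j
    nlinarith
  have h5 : ((j : ℝ) + 1) ^ j < 4 * U := by
    have : (((j + 1) ^ j : ℕ) : ℝ) ≤ (n - 1).factorial := by exact_mod_cast h1
    push_cast at this
    linarith
  have h6 : (j : ℝ) * log (j + 1) < log (4 * U) := by
    have := Real.log_lt_log (by positivity) h5
    rwa [Real.log_pow] at this
  have h7 : log (4 * U) ≤ 3 * y := by
    rw [Real.log_mul (by norm_num) (by linarith)]
    have h8 : log 4 ≤ 2 := by
      have : (4 : ℝ) = 2 ^ 2 := by norm_num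
      rw [this, Real.log_pow]
      have := Real.log_two_lt_d9
      push_cast
      linarith
    linarith
  have h9 : (j : ℝ) * log y ≤ 6 * y := by
    have hj0 : (0 : ℝ) ≤ j := Nat.cast_nonneg j
    by_cases hc : y ≤ ((j : ℝ) + 1) ^ 2
    · have h10 : log y ≤ 2 * log (j + 1) := by
        have := Real.log_le_log (by linarith) hc
        rwa [Real.log_pow] at this
      nlinarith
    · push Not at hc
      have hs : (j : ℝ) + 1 < sqrt y := Real.lt_sqrt_of_sq_lt hc
      have hs0 : 0 < sqrt y := Real.sqrt_pos.2 (by linarith)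
      have h11 : log y ≤ 2 * sqrt y := by
        have h12 : log y = 2 * log (sqrt y) := by
          rw [Real.log_sqrt (by linarith)]; ring
        have h13 := Real.log_le_sub_one_of_pos hs0
        rw [h12]
        linarith
      have h14 : sqrt y * sqrt y = y := Real.mul_self_sqrt (by linarith)
      calc (j : ℝ) * log y ≤ sqrt y * (2 * sqrt y) := by
            apply mul_le_mul (by linarith) h11 hly hs0.le
        _ = 2 * y := by rw [mul_left_comm, h14]
        _ ≤ 6 * y := by linarith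
  calc ((n : ℝ) + 1) * log y ≤ (2 * j + 3) * log y := mul_le_mul_of_nonneg_right hjn hly
    _ = 2 * (j * log y) + 3 * log y := by ring
    _ ≤ 15 * y := by linarith

/-- effective irrationality of `exp (2 / k)` -/
theorem exp_measure (k : ℕ) (hk : 1 ≤ k) (u v : ℤ) (h0 : u ≠ 0 ∨ v ≠ 0) (U : ℝ) (hU : 3 ≤ U)
    (hu : |(u : ℝ)| ≤ U) :
    log (log U) / (720 * (k : ℝ) ^ 3 * U * log U) ≤ |(u : ℝ) * exp (2 / (k : ℝ)) - v| := by
  obtain ⟨n, _, h1, h2⟩ := lin_form k hk u v h0 U (by linarith) hu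
  refine le_trans ?_ h1
  have h3 := n_le U hU n h2
  have hy1 : 1 < log U := by
    rw [Real.lt_log_iff_exp_lt (by linarith)]
    have := Real.exp_one_lt_d9
    linarith
  have hk1 : (1 : ℝ) ≤ k := by exact_mod_cast hk
  rw [div_le_div_iff₀ (by positivity) (by positivity)]
  have h4 : (0 : ℝ) ≤ 48 * (k : ℝ) ^ 3 * U := by positivity
  calc log (log U) * (48 * (k : ℝ) ^ 3 * (n + 1) * U)
      = (48 * (k : ℝ) ^ 3 * U) * (((n : ℝ) + 1) * log (log U)) := by ring
    _ ≤ (48 * (k : ℝ) ^ 3 * U) * (15 * log U) := mul_le_mul_of_nonneg_left h3 h4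
    _ = _ := by ring

/-- The consequence for `π` of a bilinear relation with `exp (2 / k)`. -/
theorem pi_measure (k : ℕ) (hk : 1 ≤ k) (a b c d : ℤ)
    (h0 : ¬ (a = 0 ∧ b = 0 ∧ c = 0 ∧ d = 0))
    (h : (a : ℝ) + b * exp (2 / (k : ℝ)) + c * π + d * (π * exp (2 / (k : ℝ))) = 0) :
    ∃ C : ℝ, 0 < C ∧ ∀ (p : ℤ) (q : ℕ), 3 ≤ q →
      C * (log (log q) / ((q : ℝ) ^ 2 * log q)) ≤ |π - p / q| := by
  set w := exp (2 / (k : ℝ)) with hw
  have hk1 : (1 : ℝ) ≤ k := by exact_mod_cast hk
  have hne : ∀ u v : ℤ, (u ≠ 0 ∨ v ≠ 0) → (u : ℝ) * w - v ≠ 0 := by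
    intro u v huv hz
    have h1 := exp_measure k hk u v huv (|(u : ℝ)| + 3) (by linarith [abs_nonneg (u : ℝ)])
      (by linarith)
    rw [← hw, hz, abs_zero] at h1
    have hy1 : 1 < log (|(u : ℝ)| + 3) := by
      rw [Real.lt_log_iff_exp_lt (by positivity)]
      have := Real.exp_one_lt_d9
      linarith [abs_nonneg (u : ℝ)]
    have h2 : 0 < log (log (|(u : ℝ)| + 3)) := Real.log_pos hy1
    have h3 : 0 < log (log (|(u : ℝ)| + 3)) / (720 * (k : ℝ) ^ 3 * (|(u : ℝ)| + 3) *
        log (|(u : ℝ)| + 3)) := by positivity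
    linarith
  have hcd : (c : ℝ) + d * w ≠ 0 := by
    intro hz
    by_cases hcd0 : d ≠ 0 ∨ -c ≠ 0
    · apply hne d (-c) hcd0
      push_cast
      linarith
    · push Not at hcd0
      have hc0 : c = 0 := by omega
      have hd0 : d = 0 := hcd0.1
      rw [hc0, hd0] at h
      by_cases hab : b ≠ 0 ∨ -a ≠ 0
      · apply hne b (-a) hab
        push_cast at h ⊢
        linarith
      · push Not at hab
        exact h0 ⟨by omega, hab.1, hc0, hd0⟩
  set ρ := |(c : ℝ) + d * w| with hρ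
  have hρ0 : 0 < ρ := abs_pos.2 hcd
  set M : ℝ := |(b : ℝ)| + 5 * |(d : ℝ)| + 1 with hM
  have hM1 : 1 ≤ M := by
    have := abs_nonneg (b : ℝ); have := abs_nonneg (d : ℝ); linarith
  have hlM : 0 ≤ log M := Real.log_nonneg hM1
  refine ⟨min 1 (1 / (720 * (k : ℝ) ^ 3 * ρ * M * (1 + log M))), by positivity, ?_⟩
  intro p q hq
  have hq3 : (3 : ℝ) ≤ q := by exact_mod_cast hq
  have hq0 : (0 : ℝ) < q := by linarith
  have hlq : 1 < log q := by
    rw [Real.lt_log_iff_exp_lt hq0]
    have := Real.exp_one_lt_d9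
    linarith
  have hllq : 0 < log (log q) := Real.log_pos hlq
  have hllq2 : log (log q) ≤ log q := by
    have := Real.log_le_sub_one_of_pos (by linarith : 0 < log q)
    linarith
  have hX : 0 < log (log q) / ((q : ℝ) ^ 2 * log q) := by positivity
  have habs : |π - p / q| = |q * π - p| / q := by
    have : π - p / q = (q * π - p) / q := by field_simp
    rw [this, abs_div, abs_of_pos hq0]
  by_cases hbig : 1 ≤ |q * π - p|
  · have h1 : log (log q) / ((q : ℝ) ^ 2 * log q) ≤ 1 / q := by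
      rw [div_le_div_iff₀ (by positivity) hq0]
      have : (q : ℝ) * log q ≤ (q : ℝ) ^ 2 * log q := by
        apply mul_le_mul_of_nonneg_right _ (by linarith)
        nlinarith
      nlinarith
    calc _ ≤ 1 * (log (log q) / ((q : ℝ) ^ 2 * log q)) :=
          mul_le_mul_of_nonneg_right (min_le_left _ _) hX.le
      _ ≤ 1 / q := by rw [one_mul]; exact h1
      _ ≤ |q * π - p| / q := div_le_div_of_nonneg_right hbig hq0.le
      _ = _ := habs.symm
  · push Not at hbig
    have hp : |(p : ℝ)| ≤ 5 * q := by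
      have h1 : |(p : ℝ)| ≤ |q * π - p| + |q * π| := by
        have : (p : ℝ) = -(q * π - p) + q * π := by ring
        calc |(p : ℝ)| = |-(q * π - p) + q * π| := by rw [← this]
          _ ≤ |-(q * π - p)| + |q * π| := abs_add_le _ _
          _ = _ := by rw [abs_neg]
      have h2 : |q * π| ≤ 4 * q := by
        rw [abs_of_pos (by positivity)]
        have := Real.pi_lt_four
        nlinarith
      linarith
    set u : ℤ := q * b + p * d with hu
    set v : ℤ := -(q * a + p * c) with hv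
    have hform : (u : ℝ) * w - v = (p - q * π) * (c + d * w) := by
      rw [hu, hv]
      push_cast
      linear_combination (q : ℝ) * h
    have huv : u ≠ 0 ∨ v ≠ 0 := by
      by_contra hcon
      push Not at hcon
      rw [hcon.1, hcon.2] at hform
      simp only [Int.cast_zero, zero_mul, sub_zero] at hform
      have h1 : (p : ℝ) - q * π = 0 := by
        rcases mul_eq_zero.1 hform.symm with h1 | h1
        · exact h1
        · exact absurd h1 hcd
      apply irrational_pi
      refine ⟨(p : ℚ) / q, ?_⟩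
      push_cast
      rw [div_eq_iff hq0.ne']
      linarith
    have hU3 : 3 ≤ M * q := by nlinarith
    have huU : |(u : ℝ)| ≤ M * q := by
      rw [hu]
      push_cast
      calc |(q : ℝ) * b + p * d| ≤ |(q : ℝ) * b| + |(p : ℝ) * d| := abs_add_le _ _
        _ = q * |(b : ℝ)| + |(p : ℝ)| * |(d : ℝ)| := by rw [abs_mul, abs_mul, abs_of_pos hq0]
        _ ≤ q * |(b : ℝ)| + 5 * q * |(d : ℝ)| := by
            have := mul_le_mul_of_nonneg_right hp (abs_nonneg (d : ℝ))
            linarith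
        _ ≤ M * q := by rw [hM]; nlinarith
    have h1 := exp_measure k hk u v huv (M * q) hU3 huU
    rw [← hw, hform, abs_mul, ← hρ] at h1
    have h2 : |(p : ℝ) - q * π| = |q * π - p| := abs_sub_comm _ _
    rw [h2] at h1
    have hlogU : log (M * q) ≤ (1 + log M) * log q := by
      rw [Real.log_mul (by linarith) hq0.ne']
      nlinarith
    have hlogU0 : log q ≤ log (M * q) := by
      rw [Real.log_mul (by linarith) hq0.ne']
      linarith
    have hllU : log (log q) ≤ log (log (M * q)) := Real.log_le_log (by linarith) hlogU0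
    have h3 : log (log q) / (720 * (k : ℝ) ^ 3 * (M * q) * ((1 + log M) * log q)) ≤
        log (log (M * q)) / (720 * (k : ℝ) ^ 3 * (M * q) * log (M * q)) := by
      have hlp : 0 < log (M * q) := by linarith
      apply div_le_div₀ (by linarith) hllU (mul_pos (by positivity) hlp)
      apply mul_le_mul_of_nonneg_left hlogU (by positivity)
    have h4 := h3.trans h1
    calc _ ≤ 1 / (720 * (k : ℝ) ^ 3 * ρ * M * (1 + log M)) *
          (log (log q) / ((q : ℝ) ^ 2 * log q)) :=
          mul_le_mul_of_nonneg_right (min_le_right _ _) hX.le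
      _ = (log (log q) / (720 * (k : ℝ) ^ 3 * (M * q) * ((1 + log M) * log q))) / (ρ * q) := by
          field_simp
      _ ≤ (|q * π - p| * ρ) / (ρ * q) := by
          apply div_le_div_of_nonneg_right h4 (by positivity)
      _ = |q * π - p| / q := by field_simp
      _ = _ := habs.symm

end Pool.Agent.H447R2.PE
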