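import Mathlib
import Pool.Agent.H447R2.PE.Meas

set_option autoImplicit false

/-! # The dichotomy -/

namespace Pool.Agent.H447R2.PE

open Real

/-- `π` is badly approximable up to a factor `log q / log log q`. -/
def PiBound : Prop :=
  ∃ C : ℝ, 0 < C ∧ ∀ (p : ℤ) (q : ℕ), 3 ≤ q →
    C * (log (log q) / ((q : ℝ) ^ 2 * log q)) ≤ |π - p / q|

theorem indep_or_bound (k : ℕ) (hk : 1 ≤ k) :
    LinearIndependent ℚ ![1, exp (2 / (k : ℝ)), π, π * exp (2 / (k : ℝ))] ∨ PiBound := by
  by_cases h : LinearIndependent ℚ ![1, exp (2 / (k : ℝ)), π, π * exp (2 / (k : ℝ))]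
  · exact Or.inl h
  · right
    rw [← LinearIndependent.iff_fractionRing ℤ ℚ, Fintype.linearIndependent_iff] at h
    push Not at h
    obtain ⟨g, hg, i, hi⟩ := h
    have hsum : (g 0 : ℝ) + g 1 * exp (2 / (k : ℝ)) + g 2 * π + g 3 * (π * exp (2 / (k : ℝ))) = 0 := by
      rw [Fin.sum_univ_four] at hg
      simpa using hg
    apply pi_measure k hk (g 0) (g 1) (g 2) (g 3) _ hsum
    rintro ⟨h0, h1, h2, h3⟩
    fin_cases i
    · exact hi h0
    · exact hi h1
    · exact hi h2
    · exact hi h3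

/-- Consequences of the linear independence for `k = 2`. -/
theorem indep_two (h : LinearIndependent ℚ ![1, exp (2 / ((2 : ℕ) : ℝ)), π, π * exp (2 / ((2 : ℕ) : ℝ))]) :
    ∀ a b c d : ℚ, (a : ℝ) + b * exp 1 + c * π + d * (π * exp 1) = 0 →
      a = 0 ∧ b = 0 ∧ c = 0 ∧ d = 0 := by
  intro a b c d hs
  rw [Fintype.linearIndependent_iff] at h
  have e : exp (2 / ((2 : ℕ) : ℝ)) = exp 1 := by norm_num
  rw [e] at h
  have := h ![a, b, c, d] (by
    rw [Fin.sum_univ_four]
    simp only [Rat.smul_def]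
    simpa using hs)
  exact ⟨this 0, this 1, this 2, this 3⟩

/-- The set in the definition of the irrationality measure. -/
def MS (r : ℝ) : Set (ℤ × ℤ) := {x : ℤ × ℤ | 0 < x.2 ∧
        0 < |π - (x.1 : ℝ) / (x.2 : ℝ)| ∧
        |π - (x.1 : ℝ) / (x.2 : ℝ)| < ((x.2 : ℝ)) ^ (-r)}

theorem MS_infinite (r : ℝ) (hr : r ≤ 2) : (MS r).Infinite := by
  have h := Real.infinite_rat_abs_sub_lt_one_div_den_sq_of_irrational irrational_pi
  have hinj : Function.Injective (fun q : ℚ => ((q.num, (q.den : ℤ)) : ℤ × ℤ)) := by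
    intro a b hab
    simp only [Prod.mk.injEq, Nat.cast_inj] at hab
    exact Rat.ext hab.1 hab.2
  have h2 := h.image (f := fun q : ℚ => ((q.num, (q.den : ℤ)) : ℤ × ℤ)) hinj.injOn
  refine h2.mono ?_
  rintro _ ⟨q, hq, rfl⟩
  have hden : 0 < (q.den : ℤ) := by exact_mod_cast q.pos
  have hden1 : (1 : ℝ) ≤ (q.den : ℝ) := by exact_mod_cast q.pos
  refine ⟨hden, ?_, ?_⟩
  · rw [abs_pos, sub_ne_zero]
    intro he
    apply irrational_pi
    exact ⟨q, by rw [he, Rat.cast_def]; push_cast; rfl⟩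
  · simp only [Set.mem_ofPred_eq] at hq
    have e : ((q.num : ℤ) : ℝ) / (((q.den : ℤ)) : ℝ) = (q : ℝ) := by
      rw [Rat.cast_def]; push_cast; rfl
    rw [e]
    refine lt_of_lt_of_le hq ?_
    push_cast
    rw [one_div, ← Real.rpow_natCast, ← Real.rpow_neg (by linarith)]
    apply Real.rpow_le_rpow_of_exponent_le hden1
    push_cast
    linarith

theorem MS_finite (hB : PiBound) (r : ℝ) (hr : 2 < r) : (MS r).Finite := by
  obtain ⟨C, hC, hB⟩ := hB
  -- `q ^ (r-2) * loglog q / log q` tends to infinity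
  have h1 : Filter.Tendsto (fun q : ℕ => (log (q : ℝ)) / ((q : ℝ) ^ (r - 2))) Filter.atTop (nhds 0) := by
    have := (isLittleO_log_rpow_atTop (by linarith : 0 < r - 2)).tendsto_div_nhds_zero
    exact this.comp tendsto_natCast_atTop_atTop
  have h2 := (h1.eventually_lt_const (show (0 : ℝ) < C * log (log 3) by
    have : 1 < log 3 := by
      rw [Real.lt_log_iff_exp_lt (by norm_num)]
      have := Real.exp_one_lt_d9
      linarith
    exact mul_pos hC (Real.log_pos this))).and (Filter.eventually_ge_atTop 3)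
  obtain ⟨Q, hQ⟩ := Filter.eventually_atTop.1 h2
  -- all solutions have `q < Q`
  have hbound : ∀ x ∈ MS r, x.2 < Q ∧ |x.1| ≤ 5 * Q := by
    rintro ⟨p, q⟩ ⟨hq, _, hlt⟩
    simp only at hq hlt
    obtain ⟨m, rfl⟩ : ∃ m : ℕ, q = m := ⟨q.toNat, by omega⟩
    have hm1 : 1 ≤ m := by omega
    have hm1' : (1 : ℝ) ≤ m := by exact_mod_cast hm1
    have hmQ : m < Q := by
      by_contra hcon
      push Not at hcon
      obtain ⟨h3, h4⟩ := hQ m hcon
      have h5 := hB p m h4
      have hm0 : (0 : ℝ) < m := by linarith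
      have hm3 : (3 : ℝ) ≤ m := by exact_mod_cast h4
      have hl3 : 1 < log 3 := by
        rw [Real.lt_log_iff_exp_lt (by norm_num)]
        have := Real.exp_one_lt_d9
        linarith
      have hlm : log 3 ≤ log m := Real.log_le_log (by norm_num) hm3
      have hll : log (log 3) ≤ log (log m) := Real.log_le_log (by linarith) hlm
      have h6 : C * (log (log 3) / ((m : ℝ) ^ 2 * log m)) ≤ (m : ℝ) ^ (-r) := by
        have : C * (log (log 3) / ((m : ℝ) ^ 2 * log m)) ≤
            C * (log (log m) / ((m : ℝ) ^ 2 * log m)) := by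
          apply mul_le_mul_of_nonneg_left _ hC.le
          apply div_le_div_of_nonneg_right hll
          have : 0 < log m := by linarith
          positivity
        push_cast at hlt
        linarith
      have hlm0 : 0 < log m := by linarith
      have hr2 : (m : ℝ) ^ (-r) = ((m : ℝ) ^ 2)⁻¹ * ((m : ℝ) ^ (r - 2))⁻¹ := by
        rw [← Real.rpow_natCast, ← Real.rpow_neg hm0.le, ← Real.rpow_neg hm0.le,
          ← Real.rpow_add hm0]
        congr 1
        push_cast
        ring
      have hpp : 0 < (m : ℝ) ^ (r - 2) := Real.rpow_pos_of_pos hm0 _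
      have h7 : C * log (log 3) * (m : ℝ) ^ (r - 2) ≤ log m := by
        rw [hr2] at h6
        have h8 : (C * (log (log 3) / ((m : ℝ) ^ 2 * log m))) *
            ((m : ℝ) ^ 2 * log m * (m : ℝ) ^ (r - 2)) ≤
            (((m : ℝ) ^ 2)⁻¹ * ((m : ℝ) ^ (r - 2))⁻¹) *
            ((m : ℝ) ^ 2 * log m * (m : ℝ) ^ (r - 2)) :=
          mul_le_mul_of_nonneg_right h6 (by positivity)
        have e1 : (C * (log (log 3) / ((m : ℝ) ^ 2 * log m))) *
            ((m : ℝ) ^ 2 * log m * (m : ℝ) ^ (r - 2)) = C * log (log 3) * (m : ℝ) ^ (r - 2) := by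
          field_simp
        have e2 : (((m : ℝ) ^ 2)⁻¹ * ((m : ℝ) ^ (r - 2))⁻¹) *
            ((m : ℝ) ^ 2 * log m * (m : ℝ) ^ (r - 2)) = log m := by
          field_simp
        rwa [e1, e2] at h8
      rw [div_lt_iff₀ hpp] at h3
      linarith
    refine ⟨by simp only; exact_mod_cast hmQ, ?_⟩
    have h9 : |π - (p : ℝ) / (m : ℝ)| < 1 := by
      push_cast at hlt
      refine lt_of_lt_of_le hlt ?_
      apply Real.rpow_le_one_of_one_le_of_nonpos hm1' (by linarith)
    have h10 : |(p : ℝ) / m| ≤ 5 := by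
      have h11 : |(p : ℝ) / m| ≤ |π - (p : ℝ) / m| + |π| := by
        have : (p : ℝ) / m = -(π - (p : ℝ) / m) + π := by ring
        calc |(p : ℝ) / m| = |-(π - (p : ℝ) / m) + π| := by rw [← this]
          _ ≤ |-(π - (p : ℝ) / m)| + |π| := abs_add_le _ _
          _ = _ := by rw [abs_neg]
      have : |π| < 4 := by rw [abs_of_pos Real.pi_pos]; exact Real.pi_lt_four
      linarith
    rw [abs_div, abs_of_pos (by linarith : (0 : ℝ) < m), div_le_iff₀ (by linarith)] at h10
    have h12 : ((|p| : ℤ) : ℝ) ≤ 5 * m := by push_cast; exact h10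
    have h13 : |p| ≤ 5 * (m : ℤ) := by exact_mod_cast h12
    have : (m : ℤ) < Q := by exact_mod_cast hmQ
    simp only
    omega
  apply Set.Finite.subset ((Set.finite_Icc (-(5 * (Q : ℤ))) (5 * Q)).prod
    (Set.finite_Icc (0 : ℤ) Q))
  rintro ⟨p, q⟩ hx
  have h1 := hbound _ hx
  have h2 := hx.1
  simp only at h1 h2
  rw [Set.mem_prod, Set.mem_Icc, Set.mem_Icc]
  have := abs_le.1 h1.2
  refine ⟨⟨this.1, this.2⟩, by omega, by omega⟩

/-- the bound implies that the irrationality measure of `π` is `2` -/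
theorem measure_two (hB : PiBound) : sInf {r : ℝ | 0 < r ∧ Set.Finite (MS r)} = 2 := by
  have hset : {r : ℝ | 0 < r ∧ Set.Finite (MS r)} = Set.Ioi 2 := by
    ext r
    simp only [Set.mem_ofPred_eq, Set.mem_Ioi]
    constructor
    · rintro ⟨_, hf⟩
      by_contra hcon
      push Not at hcon
      exact MS_infinite r hcon hf
    · intro hr
      exact ⟨by linarith, MS_finite hB r hr⟩
  rw [hset, csInf_Ioi]

end Pool.Agent.H447R2.PE
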